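import Pool.Agent.R900.SF.Main

/-!
# Schur-finiteness of motives: Jacobian abelian schemes suffice

Let `k` be a perfect field and `C = DM_gm(k)_ℚ`. A Jacobian is the relative Jacobian `J = Pic^0(Y / V)`, an
abelian scheme over `V`, of a smooth projective curve `Y → V` with geometrically connected fibres and
with a section, over a smooth affine connected variety `V` over `k`.

**Theorem.** (1) The motives `M(X)_ℚ` of all smooth varieties over `k` are Schur-finite if and only if the
motives of all Jacobians are Schur-finite (`JacobiansDecide`).

(2) Let `d ≥ 1`. If the motives of all Jacobians over bases of dimension less than `d` are Schur-finite, then
so are the motives with compact support `M^c(X)` of all varieties of dimension at most `d`, smooth or not,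
and the motives `M(X)` of the smooth ones (`JacobiansDecideUpTo`).

For example the motives of all surfaces are Schur-finite if the motives of the Jacobians of families of
curves over curves are Schur-finite. For `d = 1` the condition concerns Jacobians of curves over finite
extensions of `k`, which are abelian varieties (known), and the theorem gives the known case of
dimension at most one. For `d ≥ 2` the relative motive of `J` over `V` is known to be a finite sum of
symmetric powers of its part in degree one; the question is about the motive of `J` over `k`.

The proof shows more: every thick triangulated subcategory of `DM_gm(k)_ℚ` which is stable under Tate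
twists and contains `M^c(J)` for all Jacobians over bases of dimension less than `d` contains `M^c(X)` for all
`X` of dimension at most `d`.

The idea. The function field of `X` is the function field of a curve over a smaller field. After a finite
extension this curve is an open part of the generic fibre of a curve `Y → V` as above. For large `N` the
symmetric power `P = Sym^N(Y / V)` is a projective bundle over `J`. If `s` is the section then
`iota : Y → P`, `x ↦ x + (N - 1) s`, and the correspondence `rho` of all pairs `(D, x)`, `x` in `D`, satisfy
`rho ∘ iota = 1 + (N - 1) s_* π_*` with the projection `π : Y → V`. So `M^c(Y)` is a direct summand of
`M^c(P) ⊕ M^c(V)`. The rest is an induction with the localization triangles.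
-/

set_option autoImplicit false

open CategoryTheory MonoidalCategory Pool.Agent.R900.BS Pool.Agent.R900.SF

namespace Pool.Agent.Results.MP_fc2ced_ag.AbelianSchemes

universe v u

/-- The Schur-finiteness of the motives of all smooth varieties is equivalent to that of the motives of
all Jacobians; for varieties of dimension at most `d` it follows from that for the Jacobians over bases
of dimension less than `d`. -/
theorem result {S : Type} {C : Type u} [Category.{v} C] [MonoidalCategory C]
    [SymmetricCategory C] [Preadditive C] [Linear ℚ C] [Limits.HasZeroObject C] [HasShift C ℤ]
    [∀ n : ℤ, (shiftFunctor C n).Additive] [Pretriangulated C] {G : Varieties S}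
    {IsSmooth : S → Prop} {D : Motives S C} (hG : IsVarieties G) (hC : IsClosed D.L)
    (hD : IsMotives G IsSmooth D) :
    JacobiansDecide G IsSmooth D ∧ JacobiansDecideUpTo G IsSmooth D :=
  ⟨jacobiansDecide hG hC hD, jacobiansDecideUpTo hG hC hD⟩

end Pool.Agent.Results.MP_fc2ced_ag.AbelianSchemes
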