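import Pool.Agent.R905.SF.Main

/-!
# Schur-finiteness of geometric motives and cubic hypersurfaces

`C` is Voevodsky's category of geometric motives with rational coefficients over a perfect field `K`,
`L = ℚ(1)[2]` and `L' = ℚ(-1)[-2]`, `M X` is the motive with compact supports of a separated scheme of
finite type over `K` and `N X` the motive of `X`; `Sm` is the class of smooth schemes. For smooth `X`
the object `M X` is, up to a twist, the dual of `N X`.

An object is Schur-finite if for some `n` the `n!` permutations of the factors of its `n`-th tensor
power are linearly dependent over `ℚ` (equivalently, some Schur functor vanishes on it). That tensor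
products with `L` preserve Schur-finiteness is proved; that Schur-finite objects satisfy
two-out-of-three in distinguished triangles is the theorem of Guletskii and Mazza. So the property of
`X` that `M X` is Schur-finite satisfies two-out-of-three and is invariant under affine bundles.
-/

set_option autoImplicit false

open AlgebraicGeometry CategoryTheory Limits MonoidalCategory Pretriangulated
open Pool.Agent.R911.Sf Pool.Agent.R904.CU Pool.Agent.R904.EL Pool.Agent.R905.SF

namespace Pool.Agent.Results.MP_fc2ced_ag.CubicsAndArrangements

universe v u

/-- The following are equivalent: (1) the motives of all smooth schemes over `K` are Schur-finite;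
(2) the motives with compact supports of all separated schemes of finite type over `K` are
Schur-finite; (3) the motives of the smooth hypersurfaces of degree at most three in affine spaces
over `K` are Schur-finite; (4) the motives of the complements `a ≠ 0` of hypersurfaces in affine
spaces over `K` are Schur-finite, for all finite products `a` of polynomials of the forms
`xᵢ xⱼ - xₖ`, `xᵢ + xⱼ - xₖ` and `xᵢ - c` with `c` in `K`. -/
theorem result {C : Type u} [Category.{v} C] [MonoidalCategory C] [SymmetricCategory C]
    [Preadditive C] [Linear ℚ C] [MonoidalPreadditive C] [MonoidalLinear ℚ C]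
    [HasZeroObject C] [HasShift C ℤ] [∀ n : ℤ, (shiftFunctor C n).Additive] [Pretriangulated C]
    (hC : SchurTriangles C) (L L' : C) (hL : IsLine L L') (K : Type) [Field K]
    (M N : ∀ X : Scheme.{0}, (X ⟶ Spec (.of K)) → C) (hM : Localization M) (hB : Bundles L M)
    (Sm : SchProp K)
    (hN : ∀ X f, SepFinType K X f → Sm X f → (SchurFinite (N X f) ↔ SchurFinite (M X f)))
    (h1 : ∀ (ι : Type) [Fintype ι] (F : MvPolynomial ι K), IsSmoothCubic F → Sm _ (hyp F))
    (h2 : ∀ (ι : Type) [Fintype ι], ∀ a ∈ elemProds (Set.univ : Set K) ι, Sm _ (complHom a)) :
    [∀ X f, SepFinType K X f → Sm X f → SchurFinite (N X f),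
     ∀ X f, SepFinType K X f → SchurFinite (M X f),
     ∀ (ι : Type) [Fintype ι] (F : MvPolynomial ι K), IsSmoothCubic F →
       SchurFinite (N _ (hyp F)),
     ∀ (ι : Type) [Fintype ι], ∀ a ∈ elemProds (Set.univ : Set K) ι,
       SchurFinite (N _ (complHom a))].TFAE :=
  main hC hM hL hB hN h1 h2

end Pool.Agent.Results.MP_fc2ced_ag.CubicsAndArrangements
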