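import Pool.Agent.R911.Sf.Main

/-!
# Schur-finiteness descends from tensor products with non-negligible objects

`C` is a `ℚ`-linear rigid symmetric monoidal category in which the endomorphisms of the unit object
are the rational numbers, for example Voevodsky's category `DM_gm(k)_ℚ` of geometric motives over a
perfect field `k`. An object `X` is Schur-finite if for some `n` a Schur functor of degree `n`
vanishes on `X`; equivalently, if for some `n` the `n!` permutations of the factors of `X ^ n` are
linearly dependent endomorphisms over `ℚ`.

Let `M ⊗ N` be a direct summand of `P`, and suppose that some endomorphism `f` of `N` has a nonzero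
trace (that is, `N` is not zero modulo the largest tensor ideal; for instance the Euler
characteristic of `N` is not zero). If the permutations of the factors of `P ^ n` are linearly
dependent then so are the permutations of the factors of `M ^ n`. Hence `M` is Schur-finite if `P` is.
-/

set_option autoImplicit false

open CategoryTheory Limits MonoidalCategory

namespace Pool.Agent.Results.MP_fc2ced_ag.NonNegligibleFactors

open Pool.Agent.Y116.MT Pool.Agent.Y112.KD Pool.Agent.R911.Sf

universe v u

/-- **Schur-finiteness and tensor factors.** -/
theorem result {C : Type u} [Category.{v} C] [MonoidalCategory C] [SymmetricCategory C]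
    [Preadditive C] [Linear ℚ C] [MonoidalPreadditive C] [MonoidalLinear ℚ C]
    [RightRigidCategory C] (hU : UnitQ C) {M N P : C} (i : M ⊗ N ⟶ P) (r : P ⟶ M ⊗ N)
    (hir : i ≫ r = 𝟙 (M ⊗ N)) (f : N ⟶ N) (hf : tr f ≠ 0) :
    (∀ n, PermDependent P n → PermDependent M n) ∧ (SchurFinite P → SchurFinite M) :=
  ⟨fun _ h => division hU i r hir f hf h, fun ⟨n, h⟩ => ⟨n, division hU i r hir f hf h⟩⟩

end Pool.Agent.Results.MP_fc2ced_ag.NonNegligibleFactors
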